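import Pool.Agent.Helper54.SR.Defs

/-!
# SR-D5a: weights of products and powers
-/

set_option autoImplicit false

open Polynomial

namespace Pool.Agent.Helper54.SR

section series

variable {k : Type} [Field k]

theorem h43_BD_zero (m : ℤ) : BD m (0 : EE k) := by
  intro r e _
  simp

theorem h43_BD_add {m : ℤ} {z z' : EE k} (h : BD m z) (h' : BD m z') : BD m (z + z') := by
  intro r e he
  rw [map_add, HahnSeries.coeff_add, h r e he, h' r e he, add_zero]

theorem h43_BD_sum {ι : Type*} (s : Finset ι) (f : ι → EE k) {m : ℤ}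
    (h : ∀ i ∈ s, BD m (f i)) : BD m (∑ i ∈ s, f i) := by
  classical
  induction s using Finset.induction_on with
  | empty => simpa using h43_BD_zero m
  | insert a s ha ih =>
    rw [Finset.sum_insert ha]
    exact h43_BD_add (h a (Finset.mem_insert_self _ _))
      (ih fun i hi => h i (Finset.mem_insert_of_mem hi))

theorem h43_coeff_mul {a b : ℤ} {x y : LaurentSeries k} (hx : ∀ e : ℤ, a < e → x.coeff e = 0)
    (hy : ∀ e : ℤ, b < e → y.coeff e = 0) (e : ℤ) (he : a + b < e) : (x * y).coeff e = 0 := by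
  rw [HahnSeries.coeff_mul]
  apply Finset.sum_eq_zero
  rintro ⟨i, j⟩ hij
  rw [Finset.mem_antidiagonal] at hij
  obtain ⟨-, -, h3⟩ := hij
  simp only at h3 ⊢
  by_cases hi : a < i
  · rw [hx i hi, zero_mul]
  · rw [hy j (by omega), mul_zero]

theorem h43_BD_mul {a b : ℤ} {z z' : EE k} (h : BD a z) (h' : BD b z') : BD (a + b) (z * z') := by
  intro r e he
  rw [PowerSeries.coeff_mul]
  rw [HahnSeries.coeff_sum]
  apply Finset.sum_eq_zero
  intro p _
  exact h43_coeff_mul (fun e he => h p.1 e he) (fun e he => h' p.2 e he) e he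

theorem h43_BD_one : BD 0 (1 : EE k) := by
  intro r e he
  rw [PowerSeries.coeff_one]
  split_ifs
  · rw [HahnSeries.coeff_one, if_neg (by omega)]
  · simp

/-- SR-D5a -/
theorem WF.mul {d : ℕ} {m m' : ℤ} {H H' : Polynomial (EE k)} (h : WF d m H) (h' : WF d m' H') :
    WF d (m + m') (H * H') := by
  intro j
  rw [Polynomial.coeff_mul]
  apply h43_BD_sum
  rintro ⟨i, i'⟩ hi
  rw [Finset.HasAntidiagonal.mem_antidiagonal] at hi
  have h1 := h43_BD_mul (h i) (h' i')
  have h2 : m - d * i + (m' - d * i') = m + m' - d * j := by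
    rw [← hi]
    push_cast
    ring
  rw [h2] at h1
  exact h1

/-- SR-D5a -/
theorem WF.pow {d : ℕ} {m : ℤ} {H : Polynomial (EE k)} (h : WF d m H) (e : ℕ) :
    WF d (e * m) (H ^ e) := by
  induction e with
  | zero =>
    intro j
    rw [pow_zero, Polynomial.coeff_one]
    split_ifs with hj
    · have h1 : ((0 : ℕ) : ℤ) * m - d * j = 0 := by
        rw [hj]
        simp
      rw [h1]
      exact h43_BD_one
    · exact h43_BD_zero _
  | succ e ih =>
    rw [pow_succ]
    have h1 := WF.mul ih h
    have h2 : (e : ℤ) * m + m = ((e + 1 : ℕ) : ℤ) * m := by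
      push_cast
      ring
    rw [h2] at h1
    exact h1

end series

end Pool.Agent.Helper54.SR
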