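import Pool.Agent.Helper54.SR.Defs
import Pool.Agent.Helper18.PW.Places1
import Pool.Agent.Helper54.PW.Main2

/-!
# SR-L2b: the wild inertia group is a `p`-group
-/

set_option autoImplicit false
set_option linter.unusedVariables false
set_option linter.unusedSectionVars false
open scoped Pointwise
open Polynomial Pool.Agent.Helper54.PW

namespace Pool.Agent.Helper54.SR

section general

variable {L : Type} [Field L]

theorem h43_nonunits_add {A : ValuationSubring L} {x y : L} (hx : x ∈ A.nonunits)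
    (hy : y ∈ A.nonunits) : x + y ∈ A.nonunits := by
  rw [ValuationSubring.mem_nonunits_iff] at hx hy ⊢
  exact A.valuation.map_add_lt hx hy

theorem h43_nonunits_sum {ι : Type*} {A : ValuationSubring L} (s : Finset ι) (f : ι → L)
    (h : ∀ i ∈ s, f i ∈ A.nonunits) : ∑ i ∈ s, f i ∈ A.nonunits := by
  classical
  induction s using Finset.induction_on with
  | empty =>
    rw [Finset.sum_empty, ValuationSubring.mem_nonunits_iff]
    simp
  | insert a s ha ih =>
    rw [Finset.sum_insert ha]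
    exact h43_nonunits_add (h a (Finset.mem_insert_self _ _))
      (ih fun i hi => h i (Finset.mem_insert_of_mem hi))

theorem h43_nonunits_mul {A : ValuationSubring L} {x y : L} (hx : x ∈ A.nonunits)
    (hy : y ∈ A) : x * y ∈ A.nonunits := by
  rw [ValuationSubring.mem_nonunits_iff] at hx ⊢
  rw [← ValuationSubring.valuation_le_one_iff] at hy
  rw [map_mul]
  exact mul_lt_one_of_lt_of_le hx hy

theorem h43_nonunits_mem {A : ValuationSubring L} {x : L} (hx : x ∈ A.nonunits) : x ∈ A := by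
  rw [ValuationSubring.mem_nonunits_iff] at hx
  exact (ValuationSubring.valuation_le_one_iff _ _).1 hx.le

/-- `1 + nonunit` is a unit -/
theorem h43_un_of_sub_one {A : ValuationSubring L} {x : L} (hx : x - 1 ∈ A.nonunits) :
    Un A x := by
  have h1 : A.valuation x = 1 := by
    rw [ValuationSubring.mem_nonunits_iff] at hx
    have h2 : x = (x - 1) + 1 := by ring
    rw [h2]
    have h3 : A.valuation (x - 1) < A.valuation 1 := by rw [map_one]; exact hx
    rw [add_comm, Valuation.map_add_eq_of_lt_left _ h3, map_one]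
  have h0 : x ≠ 0 := by
    rintro rfl
    rw [map_zero] at h1
    exact zero_ne_one h1
  refine ⟨h0, ?_, ?_⟩
  · exact (ValuationSubring.valuation_le_one_iff _ _).1 h1.le
  · rw [← ValuationSubring.valuation_le_one_iff, map_inv₀, h1, inv_one]

theorem h43_un_mul {A : ValuationSubring L} {x y : L} (hx : Un A x) (hy : Un A y) :
    Un A (x * y) :=
  ⟨mul_ne_zero hx.1 hy.1, A.mul_mem _ _ hx.2.1 hy.2.1, by
    rw [mul_inv]
    exact A.mul_mem _ _ hx.2.2 hy.2.2⟩

theorem h43_un_inv {A : ValuationSubring L} {x : L} (hx : Un A x) : Un A x⁻¹ :=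
  ⟨inv_ne_zero hx.1, hx.2.2, by rw [inv_inv]; exact hx.2.1⟩

theorem h43_un_zpow {A : ValuationSubring L} {x : L} (hx : Un A x) (n : ℤ) : Un A (x ^ n) := by
  have h1 : ∀ n : ℕ, Un A (x ^ n) := by
    intro n
    induction n with
    | zero =>
      rw [pow_zero]
      exact ⟨one_ne_zero, A.one_mem, by rw [inv_one]; exact A.one_mem⟩
    | succ n ih =>
      rw [pow_succ]
      exact h43_un_mul ih hx
  cases n with
  | ofNat n =>
    rw [Int.ofNat_eq_natCast, zpow_natCast]
    exact h1 n
  | negSucc n =>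
    rw [zpow_negSucc]
    exact h43_un_inv (h1 (n + 1))

/-- a unit is not a nonunit -/
theorem h43_un_not {A : ValuationSubring L} {x : L} (hx : Un A x) : x ∉ A.nonunits := by
  intro h
  rw [ValuationSubring.mem_nonunits_iff] at h
  have h1 := hx.2.2
  rw [← ValuationSubring.valuation_le_one_iff, map_inv₀] at h1
  have h2 : A.valuation x ≠ 0 := (Valuation.ne_zero_iff _).2 hx.1
  have h3 := mul_lt_one_of_lt_of_le h h1
  rw [mul_inv_cancel₀ h2] at h3
  exact lt_irrefl _ h3

/-- a unit times a uniformizer is a uniformizer -/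
theorem h43_unif_mul {A : ValuationSubring L} {π u : L} (hπ : Unif A π) (hu : Un A u) :
    Unif A (u * π) := by
  refine ⟨mul_ne_zero hu.1 hπ.1, ?_, ?_⟩
  · rw [mul_comm]
    exact h43_nonunits_mul hπ.2.1 hu.2.1
  · intro y hy
    obtain ⟨n, hn⟩ := hπ.2.2 y hy
    refine ⟨n, ?_⟩
    rw [mul_zpow, mul_comm (u ^ n), ← mul_assoc]
    exact h43_un_mul hn (h43_un_zpow hu n)

theorem h43_pow_nonunit {A : ValuationSubring L} {π : L} (hπ : π ∈ A.nonunits) (n : ℕ) :
    π ^ (n + 1) ∈ A.nonunits := by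
  induction n with
  | zero => simpa using hπ
  | succ n ih =>
    rw [pow_succ]
    exact h43_nonunits_mul ih (h43_nonunits_mem hπ)

/-- a nonunit is divisible by the uniformizer -/
theorem h43_div_unif {A : ValuationSubring L} {π y : L} (hπ : Unif A π) (hy : y ∈ A.nonunits) :
    y / π ∈ A := by
  rcases eq_or_ne y 0 with rfl | h0
  · rw [zero_div]
    exact A.zero_mem
  obtain ⟨n, hn⟩ := hπ.2.2 y h0
  have hπA : π ∈ A := h43_nonunits_mem hπ.2.1
  rcases lt_or_ge n 0 with hn0 | hn0
  · obtain ⟨m, hm⟩ : ∃ m : ℕ, n = -((m : ℤ) + 1) := ⟨(-n - 1).toNat, by omega⟩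
    have h1 : y / π = (y * π ^ n) * π ^ m := by
      rw [hm, zpow_neg, mul_assoc, div_eq_mul_inv]
      congr 1
      have h2 : π ^ ((m : ℤ) + 1) = π ^ m * π := by
        rw [zpow_add_one₀ hπ.1, zpow_natCast]
      rw [h2, mul_inv, mul_comm (π ^ m)⁻¹, mul_assoc, inv_mul_cancel₀ (pow_ne_zero _ hπ.1), mul_one]
    rw [h1]
    exact A.mul_mem _ _ hn.2.1 (A.pow_mem hπA m)
  · exfalso
    obtain ⟨m, rfl⟩ := Int.eq_ofNat_of_zero_le hn0
    rw [zpow_natCast] at hn
    exact h43_un_not hn (h43_nonunits_mul hy (A.pow_mem hπA m))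

/-- the valuation is separated -/
theorem h43_sep {A : ValuationSubring L} {π z : L} (hπ : Unif A π)
    (h : ∀ n : ℕ, ∃ y ∈ A, z = π ^ n * y) : z = 0 := by
  by_contra h0
  obtain ⟨n, hn⟩ := hπ.2.2 z h0
  have hπA : π ∈ A := h43_nonunits_mem hπ.2.1
  obtain ⟨y, hy, hz⟩ := h (n.natAbs + 1)
  have h1 : z * π ^ n ∈ A.nonunits := by
    have h2 : z * π ^ n = (π ^ ((n.natAbs + 1 : ℕ) : ℤ) * π ^ n) * y := by
      rw [hz, zpow_natCast]
      ring
    rw [h2, ← zpow_add₀ hπ.1]
    obtain ⟨m, hm⟩ : ∃ m : ℕ, ((n.natAbs + 1 : ℕ) : ℤ) + n = ((m + 1 : ℕ) : ℤ) :=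
      ⟨(n.natAbs + n).toNat, by omega⟩
    rw [hm, zpow_natCast]
    exact h43_nonunits_mul (h43_pow_nonunit hπ.2.1 m) hy
  exact h43_un_not hn h1

end general

section wild

variable {p : ℕ} [Fact p.Prime] {k L : Type} [Field k] [IsAlgClosed k] [CharP k p] [Field L]
  [Algebra (RatFunc k) L] [FiniteDimensional (RatFunc k) L] [IsGalois (RatFunc k) L]

/-- the residue of an element of the valuation ring -/
theorem h43_residue (k : Type) {L : Type} [Field k] [IsAlgClosed k] [Field L]
    [Algebra (RatFunc k) L] [FiniteDimensional (RatFunc k) L] (A : ValuationSubring L)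
    (hA : IsPl k A) (x : L) (hx : x ∈ A) : ∃ c : k, x - co k L c ∈ A.nonunits := by
  let _ : Algebra k L := ((algebraMap (RatFunc k) L).comp (algebraMap k (RatFunc k))).toAlgebra
  have _ : IsScalarTower k (RatFunc k) L := IsScalarTower.of_algebraMap_eq fun _ => rfl
  exact residue (ff_of_algebraic k L) A hA x hx

theorem h43_smul_mem {A : ValuationSubring L} {σ : L ≃ₐ[RatFunc k] L} (hσ : σ • A = A) {x : L}
    (hx : x ∈ A) : σ x ∈ A := by
  have h1 : σ • x ∈ σ • A := ValuationSubring.smul_mem_pointwise_smul σ x A hx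
  rw [hσ] at h1
  exact h1

theorem h43_smul_co (σ : L ≃ₐ[RatFunc k] L) (c : k) : σ (co k L c) = co k L c := by
  unfold co
  exact σ.commutes _

/-- an automorphism which fixes a uniformizer is trivial -/
theorem h43_fix_unif (A : ValuationSubring L) (hA : IsPl k A) (π : L) (hπ : Unif A π)
    (τ : L ≃ₐ[RatFunc k] L) (hτ : τ • A = A) (h1 : τ π = π) : τ = 1 := by
  have hstep : ∀ n : ℕ, ∀ x ∈ A, ∃ y ∈ A, τ x - x = π ^ n * y := by
    intro n
    induction n with
    | zero =>
      intro x hx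
      refine ⟨τ x - x, sub_mem (h43_smul_mem hτ hx) hx, ?_⟩
      rw [pow_zero, one_mul]
    | succ n ih =>
      intro x hx
      obtain ⟨c, hc⟩ := h43_residue k A hA x hx
      have hz := h43_div_unif hπ hc
      have h2 : x = co k L c + π * ((x - co k L c) / π) := by
        rw [mul_div_cancel₀ _ hπ.1]
        ring
      generalize (x - co k L c) / π = z at hz h2
      obtain ⟨y, hy, hy2⟩ := ih z hz
      refine ⟨y, hy, ?_⟩
      rw [h2, map_add, map_mul, h1, h43_smul_co, pow_succ]
      linear_combination π * hy2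
  have hfix : ∀ x ∈ A, τ x = x := by
    intro x hx
    have h2 := h43_sep hπ (z := τ x - x) fun n => hstep n x hx
    exact sub_eq_zero.1 h2
  ext x
  rcases A.mem_or_inv_mem x with hx | hx
  · exact hfix x hx
  · have h2 := hfix _ hx
    rw [map_inv₀] at h2
    exact inv_injective h2

/-- SR-L2b -/
theorem wild_pow (A : ValuationSubring L) (hA : IsPl k A) (π : L) (hπ : Unif A π)
    (σ : L ≃ₐ[RatFunc k] L) (hσ : σ • A = A) (h1 : σ π / π - 1 ∈ A.nonunits) :
    ∃ a : ℕ, σ ^ p ^ a = 1 := by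
  have hp : p.Prime := Fact.out
  have hpow : ∀ j : ℕ, (σ ^ j) • A = A ∧ (σ ^ j) π / π - 1 ∈ A.nonunits := by
    intro j
    induction j with
    | zero =>
      refine ⟨by rw [pow_zero, one_smul], ?_⟩
      have h2 : (σ ^ 0) π = π := by rw [pow_zero]; rfl
      rw [h2, div_self hπ.1, sub_self, ValuationSubring.mem_nonunits_iff]
      simp
    | succ j ih =>
      have h2 : (σ ^ (j + 1)) • A = A := by
        rw [pow_succ, mul_smul, hσ, ih.1]
      refine ⟨h2, ?_⟩
      have h3 : (σ ^ (j + 1)) π = σ ((σ ^ j) π) := by rw [pow_succ']; rfl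
      have h4 : (σ ^ (j + 1)) π / π - 1 =
          σ ((σ ^ j) π / π - 1) * (σ π / π) + (σ π / π - 1) := by
        have h5 : σ π ≠ 0 := (map_ne_zero σ).2 hπ.1
        rw [h3, map_sub, map_div₀, map_one]
        field_simp [hπ.1]
        ring
      rw [h4]
      exact h43_nonunits_add
        (h43_nonunits_mul (algEquiv_mem_nonunits A σ hσ _ ih.2) (h43_un_of_sub_one h1).2.1) h1
  -- the part of the order prime to `p`
  have hfin : orderOf σ ≠ 0 := (orderOf_pos σ).ne'
  obtain ⟨a, m, hm, ho⟩ := Nat.exists_eq_pow_mul_and_not_dvd hfin p hp.ne_one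
  refine ⟨a, ?_⟩
  set τ := σ ^ p ^ a with hτd
  have hτm : τ ^ m = 1 := by
    rw [hτd, ← pow_mul, ← ho, pow_orderOf_eq_one]
  have hτA : τ • A = A := (hpow _).1
  have hτj : ∀ j : ℕ, (τ ^ j) π / π - 1 ∈ A.nonunits := by
    intro j
    rw [hτd, ← pow_mul]
    exact (hpow _).2
  have hm0 : (m : k) ≠ 0 := by
    intro h0
    exact hm ((CharP.cast_eq_zero_iff k p m).1 h0)
  set u : L := co k L (m : k)⁻¹ * ∑ j ∈ Finset.range m, (τ ^ j) π / π with hu
  have hmm : co k L (m : k)⁻¹ * (m : L) = 1 := by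
    have h2 : (m : L) = co k L (m : k) := by
      unfold co
      rw [map_natCast, map_natCast]
    rw [h2]
    unfold co
    rw [← map_mul, ← map_mul, inv_mul_cancel₀ hm0, map_one, map_one]
  have hu1 : u - 1 ∈ A.nonunits := by
    have h2 : u - 1 = (∑ j ∈ Finset.range m, ((τ ^ j) π / π - 1)) * co k L (m : k)⁻¹ := by
      rw [Finset.sum_sub_distrib, Finset.sum_const, Finset.card_range, nsmul_eq_mul, mul_one,
        sub_mul, mul_comm (m : L), hmm, hu, mul_comm]
    rw [h2]
    exact h43_nonunits_mul (h43_nonunits_sum _ _ fun j _ => hτj j) (hA.2 _)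
  have hunif := h43_unif_mul hπ (h43_un_of_sub_one hu1)
  have hfix : τ (u * π) = u * π := by
    have h2 : u * π = co k L (m : k)⁻¹ * ∑ j ∈ Finset.range m, (τ ^ j) π := by
      rw [hu, mul_assoc, Finset.sum_mul]
      congr 1
      apply Finset.sum_congr rfl
      intro j _
      rw [div_mul_cancel₀ _ hπ.1]
    rw [h2, map_mul, h43_smul_co, map_sum]
    congr 1
    have h3 : ∀ j : ℕ, τ ((τ ^ j) π) = (τ ^ (j + 1)) π := by
      intro j
      rw [pow_succ']
      rfl
    have h4 : ∑ j ∈ Finset.range m, τ ((τ ^ j) π) = ∑ j ∈ Finset.range m, (τ ^ (j + 1)) π :=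
      Finset.sum_congr rfl fun j _ => h3 j
    rw [h4]
    have h5 := Finset.sum_range_succ (fun j => (τ ^ j) π) m
    have h6 := Finset.sum_range_succ' (fun j => (τ ^ j) π) m
    rw [h5] at h6
    have h7 : (τ ^ m) π = (τ ^ 0) π := by rw [hτm, pow_zero]
    rw [h7] at h6
    exact (add_right_cancel h6).symm
  exact h43_fix_unif A hA _ hunif τ hτA hfix

end wild

end Pool.Agent.Helper54.SR
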