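import Pool.Agent.Helper43.SR.L2b

/-!
# SR-L7: units multiplied by a constant, local roots
-/

set_option autoImplicit false
set_option linter.unusedVariables false
set_option linter.unusedSectionVars false
open scoped Pointwise
open Polynomial Pool.Agent.Helper54.PW

namespace Pool.Agent.Helper54.SR

theorem h43_un_pow_iff {L : Type} [Field L] {A : ValuationSubring L} {w : L} {n : ℕ}
    (hn : 0 < n) (h : Un A (w ^ n)) : Un A w := by
  have hn0 : n ≠ 0 := hn.ne'
  have hw : w ≠ 0 := by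
    rintro rfl
    exact h.1 (zero_pow hn0)
  have key : ∀ y : L, y ^ n ∈ A → y ∈ A := by
    intro y hy
    rw [← ValuationSubring.valuation_le_one_iff, map_pow] at hy
    rw [← ValuationSubring.valuation_le_one_iff]
    exact (pow_le_one_iff_of_nonneg zero_le hn0).1 hy
  refine ⟨hw, key w h.2.1, key w⁻¹ ?_⟩
  rw [inv_pow]
  exact h.2.2

section local'
variable {p : ℕ} [Fact p.Prime] {k L : Type} [Field k] [IsAlgClosed k] [CharP k p] [Field L]
  [Algebra (RatFunc k) L] [FiniteDimensional (RatFunc k) L] [IsGalois (RatFunc k) L]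

theorem h43_co_un {A : ValuationSubring L} (hA : IsPl k A) {c : k} (hc : c ≠ 0) :
    Un A (co k L c) := by
  refine ⟨?_, hA.2 c, ?_⟩
  · unfold co
    exact (_root_.map_ne_zero _).2 ((_root_.map_ne_zero _).2 hc)
  · have h1 : (co k L c)⁻¹ = co k L c⁻¹ := by
      unfold co
      rw [map_inv₀, map_inv₀]
    rw [h1]
    exact hA.2 _

/-- SR-L7a -/
theorem unit_root (A : ValuationSubring L) (hA : IsPl k A) (σ : L ≃ₐ[RatFunc k] L)
    (hσ : σ • A = A) (w : L) (hw : Un A w) (c : k) (h : σ w = co k L c * w) : c = 1 := by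
  obtain ⟨b, hb⟩ := h43_residue k A hA w hw.2.1
  have hb0 : b ≠ 0 := by
    rintro rfl
    have h1 : co k L (0 : k) = 0 := by
      unfold co
      rw [map_zero, map_zero]
    rw [h1, sub_zero] at hb
    exact h43_un_not hw hb
  have h1 := algEquiv_mem_nonunits A σ hσ _ hb
  rw [map_sub, h, h43_smul_co] at h1
  have h2 := h43_nonunits_mul hb (hA.2 (-c))
  have h3 := h43_nonunits_add h1 h2
  have h4 : co k L c * w - co k L b + (w - co k L b) * co k L (-c) = co k L ((c - 1) * b) := by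
    unfold co
    rw [map_neg, map_neg, map_mul, map_mul, map_sub, map_sub, map_one, map_one]
    ring
  rw [h4] at h3
  by_contra hc
  have h5 : (c - 1) * b ≠ 0 := mul_ne_zero (sub_ne_zero.2 hc) hb0
  exact h43_un_not (h43_co_un hA h5) h3

/-- SR-L7b -/
theorem loc_root {ℓ : ℕ} (hℓ : 0 < ℓ) (A : ValuationSubring L) (hA : IsPl k A)
    (σ : L ≃ₐ[RatFunc k] L) (hσ : σ • A = A) (r x s : L) (hr : r ≠ 0) (hx : x ≠ 0) (hs : s ≠ 0)
    (hσr : σ (r ^ ℓ) = r ^ ℓ) (hσx : σ x = x) (a : k) (hσs : σ s = co k L a * s) (m : ℤ)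
    (hu : Un A (r ^ ℓ * x ^ ℓ * (s ^ ℓ) ^ m)) : σ r = co k L (a ^ (-m)) * r := by
  let _ : Algebra k L := ((algebraMap (RatFunc k) L).comp (algebraMap k (RatFunc k))).toAlgebra
  have hco : ∀ c : k, algebraMap k L c = co k L c := fun _ => rfl
  have hω : (σ r / r) ^ ℓ = 1 := by
    rw [div_pow, ← map_pow, hσr, div_self (pow_ne_zero _ hr)]
  have halg : IsAlgebraic k (σ r / r) := by
    refine ⟨X ^ ℓ - 1, (monic_X_pow_sub_C (1 : k) hℓ.ne').ne_zero, ?_⟩
    rw [map_sub, map_pow, aeval_X, map_one, hω, sub_self]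
  obtain ⟨b, hb⟩ := Places1.exists_const halg
  have hσr2 : σ r = co k L b * r := by
    rw [← hco, hb, div_mul_cancel₀ _ hr]
  have ha : a ≠ 0 := by
    rintro rfl
    have h1 : co k L (0 : k) = 0 := by
      unfold co
      rw [map_zero, map_zero]
    rw [h1, zero_mul] at hσs
    exact hs ((map_eq_zero σ).1 hσs)
  have hw : Un A (r * x * s ^ m) := by
    refine h43_un_pow_iff hℓ ?_
    have h1 : (r * x * s ^ m) ^ ℓ = r ^ ℓ * x ^ ℓ * (s ^ ℓ) ^ m := by
      rw [mul_pow, mul_pow]
      congr 1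
      rw [← zpow_natCast, ← zpow_mul, ← zpow_natCast, ← zpow_mul, mul_comm]
    rw [h1]
    exact hu
  have hw2 : σ (r * x * s ^ m) = co k L (b * a ^ m) * (r * x * s ^ m) := by
    rw [map_mul, map_mul, hσr2, hσx, map_zpow₀, hσs, mul_zpow]
    have h1 : co k L (b * a ^ m) = co k L b * co k L a ^ m := by
      unfold co
      rw [map_mul, map_mul, map_zpow₀, map_zpow₀]
    rw [h1]
    ring
  have h1 := unit_root A hA σ hσ _ hw _ hw2
  have h2 : b = a ^ (-m) := by
    rw [zpow_neg]
    exact eq_inv_of_mul_eq_one_left h1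
  rw [hσr2, h2]

end local'

end Pool.Agent.Helper54.SR
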